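import Pool.Agent.L0h87.LE.Stm

set_option autoImplicit false

/-!
# Exponential sums over odd integers: blocks and periodicity
-/

namespace Pool.Agent.L0h87.LE

open Finset Filter Topology

theorem ee_add (a b : ℝ) : ee (a + b) = ee a * ee b := by
  unfold ee
  rw [← Complex.exp_add]
  congr 1
  push_cast
  ring

theorem ee_int (n : ℤ) : ee n = 1 := by
  unfold ee
  have : 2 * (Real.pi : ℂ) * Complex.I * ((n : ℝ) : ℂ) = n * (2 * Real.pi * Complex.I) := by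
    push_cast
    ring
  rw [this, Complex.exp_int_mul_two_pi_mul_I]

theorem norm_ee (t : ℝ) : ‖ee t‖ = 1 := by
  unfold ee
  have : 2 * (Real.pi : ℂ) * Complex.I * (t : ℂ) = ((2 * Real.pi * t : ℝ) : ℂ) * Complex.I := by
    push_cast
    ring
  rw [this, Complex.norm_exp_ofReal_mul_I]

theorem norm_ee_sub_one (t : ℝ) : ‖ee t - 1‖ ≤ 2 * Real.pi * |t| := by
  unfold ee
  have : 2 * (Real.pi : ℂ) * Complex.I * (t : ℂ) = Complex.I * ((2 * Real.pi * t : ℝ) : ℂ) := by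
    push_cast
    ring
  rw [this]
  refine (Real.norm_exp_I_mul_ofReal_sub_one_le).trans (le_of_eq ?_)
  rw [Real.norm_eq_abs, abs_mul, abs_of_pos Real.two_pi_pos]

theorem sum_odds {E : Type} [AddCommMonoid E] (F : ℕ → E) (N : ℕ) :
    ∑ n ∈ odds N, F n = ∑ j ∈ range ((N + 1) / 2), F (2 * j + 1) := by
  symm
  refine Finset.sum_bij (fun j _ => 2 * j + 1) ?_ ?_ ?_ ?_
  · intro j hj
    rw [mem_range] at hj
    rw [odds, mem_filter, mem_Icc]
    omega
  · intro j _ j' _ h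
    omega
  · intro n hn
    rw [odds, mem_filter, mem_Icc] at hn
    exact ⟨n / 2, by rw [mem_range]; omega, by omega⟩
  · intro j _
    rfl

theorem sum_blocks {E : Type} [AddCommMonoid E] (F : ℕ → E) (M I : ℕ) :
    ∑ j ∈ range (M * I), F (2 * j + 1) = ∑ i ∈ range I, ∑ s ∈ range M, F (2 * M * i + 2 * s + 1) := by
  induction I with
  | zero => simp
  | succ I ih =>
    rw [mul_add, mul_one, sum_range_succ, ← ih, Finset.sum_range_add]
    congr 1
    refine Finset.sum_congr rfl fun s _ => ?_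
    congr 1
    ring

/-- the decomposition into blocks of `M` odd integers -/
theorem sum_near {F : ℕ → ℂ} {B : ℝ} (hB : ∀ n, ‖F n‖ ≤ B) {N M I : ℕ} (h : 2 * M * I ≤ N) :
    ‖∑ n ∈ odds N, F n - ∑ i ∈ range I, ∑ s ∈ range M, F (2 * M * i + 2 * s + 1)‖ ≤
      B * ((N : ℝ) + 1 - 2 * M * I) / 2 := by
  rw [sum_odds, ← sum_blocks]
  have h1 : M * I ≤ (N + 1) / 2 := by
    rw [Nat.le_div_iff_mul_le (by norm_num)]
    have : 2 * M * I = M * I * 2 := by ring
    omega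
  rw [← Finset.sum_range_add_sum_Ico _ h1, add_sub_cancel_left]
  refine (norm_sum_le _ _).trans ?_
  refine (Finset.sum_le_sum fun j _ => hB _).trans ?_
  rw [Finset.sum_const, Nat.card_Ico, nsmul_eq_mul]
  have hB0 : 0 ≤ B := (norm_nonneg _).trans (hB 0)
  have h2 : (((N + 1) / 2 - M * I : ℕ) : ℝ) ≤ ((N : ℝ) + 1 - 2 * M * I) / 2 := by
    rw [Nat.cast_sub h1]
    have : (((N + 1) / 2 : ℕ) : ℝ) ≤ ((N : ℝ) + 1) / 2 := by
      have := @Nat.cast_div_le ℝ _ _ _ (N + 1) 2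
      push_cast at this
      exact this
    push_cast
    linarith
  calc (((N + 1) / 2 - M * I : ℕ) : ℝ) * B ≤ ((N : ℝ) + 1 - 2 * M * I) / 2 * B :=
        mul_le_mul_of_nonneg_right h2 hB0
    _ = _ := by ring

/-- the main parts -/
noncomputable def XX (f : ℕ → ℝ) (A I : ℕ) (θ : ℝ) : ℂ := ∑ i ∈ range I, (f (2 * A * i + 1) : ℂ) * ee (θ * i)

noncomputable def YY (M : ℕ) (α : ℝ) : ℂ := ∑ s ∈ range M, ee (α * (2 * s + 1))

noncomputable def DD (f : ℕ → ℝ) (A M I : ℕ) : ℝ :=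
  ∑ s ∈ range M, ∑ i ∈ range I, |f (2 * M * i + 2 * s + 1) - f (2 * A * i + 1)|

theorem blocks {f : ℕ → ℝ} (A M I : ℕ) (α : ℝ) :
    ‖∑ i ∈ range I, ∑ s ∈ range M, (f (2 * M * i + 2 * s + 1) : ℂ) * ee (α * ((2 * M * i + 2 * s + 1 : ℕ) : ℝ)) -
      XX f A I (2 * M * α) * YY M α‖ ≤ DD f A M I := by
  unfold XX YY DD
  rw [Finset.sum_mul_sum, ← Finset.sum_sub_distrib]
  refine (norm_sum_le _ _).trans ?_
  rw [Finset.sum_comm (s := range M)]
  refine Finset.sum_le_sum fun i _ => ?_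
  rw [← Finset.sum_sub_distrib]
  refine (norm_sum_le _ _).trans ?_
  refine Finset.sum_le_sum fun s _ => ?_
  have e1 : ee (α * ((2 * M * i + 2 * s + 1 : ℕ) : ℝ)) = ee (2 * M * α * i) * ee (α * (2 * s + 1)) := by
    rw [← ee_add]
    congr 1
    push_cast
    ring
  have e2 : (f (2 * M * i + 2 * s + 1) : ℂ) * (ee (2 * M * α * i) * ee (α * (2 * s + 1))) -
      (f (2 * A * i + 1) : ℂ) * ee (2 * M * α * i) * ee (α * (2 * s + 1)) =
      ((f (2 * M * i + 2 * s + 1) - f (2 * A * i + 1) : ℝ) : ℂ) * (ee (2 * M * α * i) * ee (α * (2 * s + 1))) := by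
    push_cast
    ring
  rw [e1, e2, norm_mul, norm_mul, norm_ee, norm_ee, Complex.norm_real, Real.norm_eq_abs]
  simp

theorem XX_le {f : ℕ → ℝ} {C : ℝ} (hC : ∀ n, |f n| ≤ C) (A I : ℕ) (θ : ℝ) : ‖XX f A I θ‖ ≤ C * I := by
  unfold XX
  refine (norm_sum_le _ _).trans ?_
  refine (Finset.sum_le_sum (g := fun _ => C) fun i _ => ?_).trans (le_of_eq ?_)
  · rw [norm_mul, norm_ee, mul_one, Complex.norm_real, Real.norm_eq_abs]
    exact hC _
  · rw [Finset.sum_const, card_range, nsmul_eq_mul]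
    ring

theorem YY_sub (M : ℕ) (α : ℝ) : ‖YY M α - M‖ ≤ 2 * Real.pi * |α| * M ^ 2 := by
  unfold YY
  have h0 : (M : ℂ) = ∑ s ∈ range M, (1 : ℂ) := by simp
  rw [h0, ← Finset.sum_sub_distrib]
  refine (norm_sum_le _ _).trans ?_
  have h1 : ∀ s ∈ range M, ‖ee (α * (2 * s + 1)) - 1‖ ≤ 2 * Real.pi * |α| * (2 * s + 1) := by
    intro s _
    refine (norm_ee_sub_one _).trans (le_of_eq ?_)
    rw [abs_mul, abs_of_nonneg (by positivity : (0 : ℝ) ≤ 2 * s + 1)]
    ring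
  refine (Finset.sum_le_sum h1).trans (le_of_eq ?_)
  rw [← Finset.mul_sum]
  congr 1
  clear h1 h0
  induction M with
  | zero => simp
  | succ M ih =>
    rw [sum_range_succ, ih]
    push_cast
    ring

theorem S_near {f : ℕ → ℝ} {C : ℝ} (hC : ∀ n, |f n| ≤ C) (A : ℕ) {N M I : ℕ} (h : 2 * M * I ≤ N) (α : ℝ) :
    ‖S f N α - XX f A I (2 * M * α) * YY M α‖ ≤ DD f A M I + C * ((N : ℝ) + 1 - 2 * M * I) / 2 := by
  have h1 := sum_near (F := fun n => (f n : ℂ) * ee (α * n)) (B := C) (fun n => by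
    rw [norm_mul, norm_ee, mul_one, Complex.norm_real, Real.norm_eq_abs]
    exact hC n) h
  have h2 := blocks (f := f) A M I α
  have h3 := norm_add_le (S f N α - ∑ i ∈ range I, ∑ s ∈ range M, (f (2 * M * i + 2 * s + 1) : ℂ) *
    ee (α * ((2 * M * i + 2 * s + 1 : ℕ) : ℝ))) (∑ i ∈ range I, ∑ s ∈ range M, (f (2 * M * i + 2 * s + 1) : ℂ) *
    ee (α * ((2 * M * i + 2 * s + 1 : ℕ) : ℝ)) - XX f A I (2 * M * α) * YY M α)
  rw [sub_add_sub_cancel] at h3
  refine h3.trans ?_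
  rw [add_comm (DD f A M I)]
  exact add_le_add h1 h2

/-- the frequency matters only modulo `1 / 2` -/
theorem S_half (f : ℕ → ℝ) (N : ℕ) (α : ℝ) (j : ℤ) : ‖S f N (α + j / 2)‖ = ‖S f N α‖ := by
  have h : S f N (α + j / 2) = ee (j / 2) * S f N α := by
    unfold S
    rw [Finset.mul_sum]
    refine Finset.sum_congr rfl fun n hn => ?_
    rw [odds, mem_filter, mem_Icc] at hn
    obtain ⟨t, rfl⟩ : ∃ t, n = 2 * t + 1 := ⟨n / 2, by omega⟩
    have e : ee ((α + j / 2) * ((2 * t + 1 : ℕ) : ℝ)) = ee (j / 2) * ee (α * ((2 * t + 1 : ℕ) : ℝ)) := by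
      have h1 : (α + j / 2) * ((2 * t + 1 : ℕ) : ℝ) =
          (α * ((2 * t + 1 : ℕ) : ℝ) + j / 2) + ((j * t : ℤ) : ℝ) := by
        push_cast
        ring
      rw [h1, ee_add, ee_int, mul_one, ee_add, mul_comm]
    rw [e]
    ring
  rw [h, norm_mul, norm_ee, one_mul]

end Pool.Agent.L0h87.LE
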