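import Mathlib

set_option autoImplicit false

/-!
# Heights of the 3x+1 map in linear equations: definitions and module statements

Plan: a bounded function `f` on the odd integers of mean value zero which is nearly invariant under small shifts
and under multiplication by `3^b / 2^a` (this is so for the heights) has small exponential sums
`∑ f(n) e(α n)`, uniformly in `α` (statement `FU`). The circle method gives the independence of the heights in the solutions of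
linear equations with at least three variables.
-/

namespace Pool.Agent.L0h87.LE

open Finset Filter Topology

/-- `e(t) = exp (2 π i t)` -/
noncomputable def ee (t : ℝ) : ℂ := Complex.exp (2 * Real.pi * Complex.I * t)

/-- the odd integers up to `N` -/
def odds (N : ℕ) : Finset ℕ := (Icc 1 N).filter (fun n => n % 2 = 1)

/-- the exponential sum -/
noncomputable def S (f : ℕ → ℝ) (N : ℕ) (α : ℝ) : ℂ := ∑ n ∈ odds N, (f n : ℂ) * ee (α * n)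

/-- near invariance under shifts and under multiplication by `3 ^ b / 2 ^ a`, `q ∣ b` -/
def Inv (q : ℕ) (f : ℕ → ℝ) : Prop := ∀ a b : ℕ, q ∣ b → ∀ M : ℕ, (M = 2 ^ a ∨ M = 3 ^ b) → ∀ s < M,
  ∀ ε : ℝ, 0 < ε → ∃ I₀ : ℕ, ∀ I : ℕ, I₀ ≤ I →
    ∑ i ∈ range I, |f (2 * M * i + 2 * s + 1) - f (2 * 2 ^ a * i + 1)| ≤ ε * I

/-- mean value zero on the odd integers -/
def MZ (f : ℕ → ℝ) : Prop := ∀ ε : ℝ, 0 < ε → ∃ N₀ : ℕ, ∀ N : ℕ, N₀ ≤ N → |∑ n ∈ odds N, f n| ≤ ε * N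

/-- uniformly small exponential sums -/
def FU (f : ℕ → ℝ) : Prop := ∀ ε : ℝ, 0 < ε → ∃ N₀ : ℕ, ∀ N : ℕ, N₀ ≤ N → ∀ α : ℝ, ‖S f N α‖ ≤ ε * N

/-- the sum over the solutions of a linear equation in odd integers up to `N` -/
noncomputable def G {k : ℕ} (a : Fin k → ℤ) (N : ℕ) (n : ℤ) (w : Fin k → ℕ → ℝ) : ℝ :=
  ∑ m ∈ (Fintype.piFinset fun _ : Fin k => odds N).filter (fun m => ∑ i, a i * (m i : ℤ) = n), ∏ i, w i (m i)

/-! ### Module statements -/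

/-- RHO (40 lines). Dirichlet's theorem for `q log 3 / log 2` (`Real.exists_nat_abs_mul_sub_round_le`). -/
def RHO : Prop := ∀ (q : ℕ) (η : ℝ), 1 ≤ q → 0 < η → ∃ a k : ℕ, 1 ≤ k ∧
  |(3 : ℝ) ^ (q * k) / 2 ^ a - 1| ≤ η ∧ (3 : ℝ) ^ (q * k) / 2 ^ a ≠ 1

/-- GEO (50 lines). Geometric sum over odd integers; `|e(2β) - 1| = 2 |sin (2πβ)| ≥ 8 |β|`. -/
def GEO : Prop := ∀ (β : ℝ) (J : ℕ), β ≠ 0 → |β| ≤ 1 / 4 →
  ‖∑ s ∈ range J, ee (β * (2 * s + 1))‖ ≤ 1 / (4 * |β|)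

/-- BES (100 lines, from GEO). Cauchy-Schwarz: `∑_l S f N (α l) = ∑ f(n) ∑_l e(α_l n)`, and
`∑_n |∑_l e(α_l n)|² ≤ K N + K² / (4 γ)`. -/
def BES : Prop := ∀ (K N : ℕ) (α : ℕ → ℝ) (γ C : ℝ) (f : ℕ → ℝ), 0 < γ → 0 ≤ C → (∀ n, |f n| ≤ C) →
  (∀ l < K, |α l| ≤ 1 / 8) → (∀ l < K, ∀ l' < K, l ≠ l' → γ ≤ |α l - α l'|) →
  ‖∑ l ∈ range K, S f N (α l)‖ ^ 2 ≤ C ^ 2 * N * (K * N + K ^ 2 / (4 * γ))

/-- SML (80 lines). Partial summation: if `|∑_{n ≤ y odd} f n| ≤ E` for all `y ≤ N` then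
`|S f N α| ≤ E (1 + 2π |α| N)` (e.g. induction on `N` for `S`, or `Finset.sum_range_by_parts`). -/
def SML : Prop := ∀ (f : ℕ → ℝ) (N : ℕ) (E α : ℝ), 0 ≤ E → (∀ y ≤ N, |∑ n ∈ odds y, f n| ≤ E) →
  ‖S f N α‖ ≤ E * (1 + 2 * Real.pi * |α| * N)

/-- CIR (150 lines). The circle method on `ZMod Q` (or with `(1/Q) ∑_{r<Q} e(r t / Q)`), `Q` larger than
`∑ |a_i| N + |n|`: one factor is bounded by `E`, two others by Cauchy-Schwarz (`(1/Q) ∑_r |ŵ(a r / Q)|² ≤ C² N`), the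
others trivially. -/
def CIR : Prop := ∀ (k : ℕ), 3 ≤ k → ∀ (a : Fin k → ℤ), (∀ i, a i ≠ 0) → ∀ (N : ℕ) (n : ℤ) (C E : ℝ) (w : Fin k → ℕ → ℝ)
  (i₀ : Fin k), 0 ≤ C → 0 ≤ E → (∀ i m, |w i m| ≤ C) → (∀ α : ℝ, ‖S (w i₀) N α‖ ≤ E) →
  |G a N n w| ≤ E * C ^ (k - 1) * N ^ (k - 2)

/-- HYB (80 lines, from CIR). Replace the `u i` by the `v i` one after the other
(`Finset.induction_on`, `Finset.piecewise_insert`, `Function.update`). -/
def HYB : Prop := ∀ (k : ℕ), 3 ≤ k → ∀ (a : Fin k → ℤ), (∀ i, a i ≠ 0) → ∀ (N : ℕ) (n : ℤ) (C E : ℝ)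
  (u v : Fin k → ℕ → ℝ), 0 ≤ C → 0 ≤ E → (∀ i m, |u i m| ≤ C) → (∀ i m, |v i m| ≤ C) →
  (∀ i (α : ℝ), ‖S (fun m => u i m - v i m) N α‖ ≤ E) →
  |G a N n u - G a N n v| ≤ k * (E * (2 * C) ^ (k - 1) * N ^ (k - 2))

end Pool.Agent.L0h87.LE
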