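import Pool.Agent.L0h87.LE.Mid

set_option autoImplicit false

/-!
# Small exponential sums at all frequencies, end
-/

namespace Pool.Agent.L0h87.LE

open Finset Filter Topology

variable {q : ℕ} {f : ℕ → ℝ} {C : ℝ}

theorem big (hGEO : GEO) (hC0 : 0 < C) (hC : ∀ n, |f n| ≤ C) (hI : Inv q f)
    {ε c₀ : ℝ} (hε : 0 < ε) (hc₀ : 0 < c₀) : ∀ᶠ N : ℕ in atTop, ∀ α : ℝ, c₀ ≤ |α| → |α| ≤ 1 / 4 →
      ‖S f N α‖ ≤ ε * N := by
  obtain ⟨a, ha⟩ := exists_nat_gt (C / (2 * ε * c₀))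
  obtain ⟨M, hM⟩ : ∃ M : ℕ, M = 2 ^ a := ⟨_, rfl⟩
  have hM1 : 0 < M := by rw [hM]; positivity
  have hM1' : (0 : ℝ) < M := by exact_mod_cast hM1
  have haM : (a : ℝ) ≤ M := by
    rw [hM]
    exact_mod_cast (Nat.lt_two_pow_self).le
  have hMC : C ≤ 2 * ε * c₀ * M := by
    have h1 : C / (2 * ε * c₀) ≤ M := ha.le.trans haM
    rw [div_le_iff₀ (by positivity)] at h1
    linarith
  have d1 := DD_small (a := a) (b := 0) hI (dvd_zero q) (M := M) (Or.inl hM) (ε := ε / 4) (by positivity)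
  rw [← hM] at d1
  obtain ⟨I₀, hI₀⟩ := eventually_atTop.1 d1
  have hlarge : ∀ᶠ N : ℕ in atTop, C * (1 + 2 * M) ≤ ε / 2 * N := by
    have h1 : Tendsto (fun N : ℕ => ε / 2 * (N : ℝ)) atTop atTop :=
      tendsto_natCast_atTop_atTop.const_mul_atTop (by positivity)
    exact h1.eventually_ge_atTop _
  filter_upwards [eventually_ge_atTop (2 * M * (I₀ + 1)), hlarge] with N hN1 hN2 α hα1 hα2
  have hX0n : 0 < 2 * M := by omega
  obtain ⟨I, hIdef⟩ : ∃ I, I = N / (2 * M) := ⟨_, rfl⟩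
  have i1 : 2 * M * I ≤ N := by rw [hIdef]; exact Nat.mul_div_le N (2 * M)
  have i2 : N ≤ 2 * M * (I + 1) := by
    rw [hIdef]
    exact (Nat.lt_mul_div_succ N hX0n).le
  have i3 : I₀ ≤ I := by
    rw [hIdef, Nat.le_div_iff_mul_le hX0n]
    refine le_trans ?_ hN1
    rw [mul_comm]
    exact Nat.mul_le_mul_left _ (Nat.le_succ _)
  have d2 := hI₀ I i3
  have j1 : 2 * (M : ℝ) * I ≤ N := by exact_mod_cast i1
  have j2 : (N : ℝ) ≤ 2 * M * (I + 1) := by exact_mod_cast i2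
  have hI0 : (0 : ℝ) ≤ I := Nat.cast_nonneg _
  have hN0 : (0 : ℝ) ≤ N := Nat.cast_nonneg _
  have hIN : (I : ℝ) ≤ N := by
    have : (1 : ℝ) ≤ 2 * M := by
      have : (1 : ℝ) ≤ M := by exact_mod_cast hM1
      linarith
    have := mul_le_mul_of_nonneg_right this hI0
    linarith
  have n1 := S_near hC M i1 α
  have hα0 : 0 < |α| := hc₀.trans_le hα1
  have g1 := hGEO α M (abs_pos.1 hα0) hα2
  have g2 : ‖YY M α‖ ≤ 1 / (4 * c₀) := g1.trans (one_div_le_one_div_of_le (by positivity) (by linarith))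
  have x1 := XX_le hC M I (2 * M * α)
  have p1 : ‖XX f M I (2 * M * α) * YY M α‖ ≤ ε / 4 * N := by
    rw [norm_mul]
    refine (mul_le_mul x1 g2 (norm_nonneg _) (mul_nonneg hC0.le hI0)).trans ?_
    rw [mul_one_div, div_le_iff₀ (by positivity)]
    calc C * I ≤ 2 * ε * c₀ * M * I := mul_le_mul_of_nonneg_right hMC hI0
      _ = ε * c₀ * (2 * M * I) := by ring
      _ ≤ ε * c₀ * N := mul_le_mul_of_nonneg_left j1 (by positivity)
      _ = _ := by ring
  have t1 : C * ((N : ℝ) + 1 - 2 * M * I) / 2 ≤ ε / 4 * N := by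
    have h1 : (N : ℝ) + 1 - 2 * M * I ≤ 1 + 2 * M := by linarith
    have := mul_le_mul_of_nonneg_left h1 hC0.le
    linarith
  have u4 : ε / 4 * (I : ℝ) ≤ ε / 4 * N := mul_le_mul_of_nonneg_left hIN (by positivity)
  have e : S f N α = (S f N α - XX f M I (2 * M * α) * YY M α) + XX f M I (2 * M * α) * YY M α := by ring
  rw [e]
  refine (norm_add_le _ _).trans ?_
  have : 0 ≤ ε * N := by positivity
  linarith

theorem small (hSML : SML) (hC0 : 0 < C) (hC : ∀ n, |f n| ≤ C) (hM : MZ f) {ε K₁ : ℝ} (hε : 0 < ε) (hK₁ : 0 < K₁) :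
    ∀ᶠ N : ℕ in atTop, ∀ α : ℝ, |α| * N ≤ K₁ → ‖S f N α‖ ≤ ε * N := by
  obtain ⟨e2, he2⟩ : ∃ e2 : ℝ, e2 = ε / (1 + 2 * Real.pi * K₁) := ⟨_, rfl⟩
  have he20 : 0 < e2 := by rw [he2]; positivity
  obtain ⟨N₀, hN₀⟩ := hM e2 he20
  have hlarge : ∀ᶠ N : ℕ in atTop, C * N₀ ≤ e2 * N := by
    have h1 : Tendsto (fun N : ℕ => e2 * (N : ℝ)) atTop atTop :=
      tendsto_natCast_atTop_atTop.const_mul_atTop he20
    exact h1.eventually_ge_atTop _
  filter_upwards [hlarge] with N hN α hα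
  have hN0 : (0 : ℝ) ≤ N := Nat.cast_nonneg _
  have h1 := hSML f N (e2 * N) α (by positivity) (fun y hy => by
    rcases le_or_gt N₀ y with h | h
    · refine (hN₀ y h).trans (mul_le_mul_of_nonneg_left ?_ he20.le)
      exact_mod_cast hy
    · refine le_trans ?_ hN
      refine (Finset.abs_sum_le_sum_abs _ _).trans ((Finset.sum_le_sum fun n _ => hC n).trans ?_)
      rw [Finset.sum_const, nsmul_eq_mul, mul_comm]
      refine mul_le_mul_of_nonneg_left ?_ hC0.le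
      have h2 : (odds y).card ≤ y := by
        unfold odds
        refine (card_filter_le _ _).trans ?_
        simp
      exact_mod_cast h2.trans h.le)
  refine h1.trans ?_
  have h3 : 1 + 2 * Real.pi * |α| * N ≤ 1 + 2 * Real.pi * K₁ := by
    have := mul_le_mul_of_nonneg_left hα (by positivity : 0 ≤ 2 * Real.pi)
    linarith
  refine (mul_le_mul_of_nonneg_left h3 (by positivity)).trans (le_of_eq ?_)
  rw [he2]
  field_simp

/-- uniformly small exponential sums for nearly invariant functions of mean zero -/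
theorem fur (hRHO : RHO) (hGEO : GEO) (hBES : BES) (hSML : SML) (hq : 1 ≤ q) (hC : ∀ n, |f n| ≤ C)
    (hI : Inv q f) (hM : MZ f) : FU f := by
  intro ε hε
  obtain ⟨C', hC'⟩ : ∃ C' : ℝ, C' = C + 1 := ⟨_, rfl⟩
  have hC0 : 0 < C' := by
    have := (abs_nonneg _).trans (hC 0)
    linarith
  have hC1 : ∀ n, |f n| ≤ C' := fun n => (hC n).trans (by linarith)
  obtain ⟨c₀, K₁, h1, h2, h3⟩ := mid hRHO hBES hq hC0 hC1 hI hε
  have h4 := big hGEO hC0 hC1 hI hε h1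
  have h5 := small hSML hC0 hC1 hM hε h2
  obtain ⟨N₀, hN₀⟩ := eventually_atTop.1 (h3.and (h4.and h5))
  refine ⟨N₀, fun N hN α => ?_⟩
  obtain ⟨g1, g2, g3⟩ := hN₀ N hN
  obtain ⟨β, hβ⟩ : ∃ β : ℝ, β = α - (round (2 * α) : ℤ) / 2 := ⟨_, rfl⟩
  have hαβ : α = β + (round (2 * α) : ℤ) / 2 := by rw [hβ]; ring
  have hβ4 : |β| ≤ 1 / 4 := by
    have h6 := abs_sub_round (2 * α)
    have h7 : 2 * α - (round (2 * α) : ℤ) = 2 * β := by rw [hβ]; ring
    rw [h7, abs_mul, abs_of_pos (by norm_num : (0 : ℝ) < 2)] at h6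
    linarith
  rw [hαβ, S_half]
  rcases le_or_gt (|β| * N) K₁ with h | h
  · exact g3 β h
  · rcases le_or_gt |β| c₀ with h' | h'
    · exact g1 β h.le h'
    · exact g2 β h'.le hβ4

end Pool.Agent.L0h87.LE
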