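import Pool.Agent.L0h87.LE.Tra

set_option autoImplicit false

/-!
# Small exponential sums at all frequencies
-/

namespace Pool.Agent.L0h87.LE

open Finset Filter Topology

variable {q : ℕ} {f : ℕ → ℝ} {C : ℝ}

theorem exists_lower {α : Type} (T : Finset α) (g : α → ℝ) (h : ∀ p ∈ T, 0 < g p) : ∃ c : ℝ, 0 < c ∧ ∀ p ∈ T, c ≤ g p := by
  classical
  induction T using Finset.induction_on with
  | empty => exact ⟨1, one_pos, by simp⟩
  | insert a s ha ih =>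
    obtain ⟨c, hc, h1⟩ := ih fun p hp => h p (mem_insert_of_mem hp)
    refine ⟨min c (g a), lt_min hc (h a (mem_insert_self _ _)), fun p hp => ?_⟩
    rcases mem_insert.1 hp with rfl | hp
    · exact min_le_right _ _
    · exact (min_le_left _ _).trans (h1 p hp)

/-- the middle range of the frequencies -/
theorem mid (hRHO : RHO) (hBES : BES) (hq : 1 ≤ q) (hC0 : 0 < C) (hC : ∀ n, |f n| ≤ C) (hI : Inv q f)
    {ε : ℝ} (hε : 0 < ε) : ∃ c₀ K₁ : ℝ, 0 < c₀ ∧ 0 < K₁ ∧ ∀ᶠ N : ℕ in atTop, ∀ α : ℝ, K₁ ≤ |α| * N → |α| ≤ c₀ →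
      ‖S f N α‖ ≤ ε * N := by
  -- the number of frequencies
  obtain ⟨K, hK⟩ := exists_nat_gt (8 * C ^ 2 / ε ^ 2)
  have hK0 : (0 : ℝ) < K := lt_trans (by positivity) hK
  have hK1 : 0 < K := by exact_mod_cast hK0
  -- the ratio
  obtain ⟨η, hη⟩ : ∃ η : ℝ, η = min (1 / 2) (ε / (16 * C)) := ⟨_, rfl⟩
  have hη0 : 0 < η := by rw [hη]; exact lt_min (by norm_num) (by positivity)
  have hη1 : η ≤ 1 / 2 := by rw [hη]; exact min_le_left _ _
  have hη2 : 2 * C * η ≤ ε / 8 := by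
    have : η ≤ ε / (16 * C) := by rw [hη]; exact min_le_right _ _
    have h1 := mul_le_mul_of_nonneg_left this (by positivity : 0 ≤ 2 * C)
    have h2 : 2 * C * (ε / (16 * C)) = ε / 8 := by field_simp; ring
    linarith
  have hev : ∀ᶠ x : ℝ in 𝓝 1, ∀ l ∈ range K, |x ^ l - 1| < η := by
    refine (eventually_all_finset (range K)).2 fun l _ => ?_
    have h1 : Tendsto (fun x : ℝ => x ^ l - 1) (𝓝 1) (𝓝 (1 ^ l - 1)) := ((continuous_pow l).tendsto 1).sub_const 1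
    rw [one_pow, sub_self] at h1
    have := (Metric.tendsto_nhds.1 h1) η hη0
    filter_upwards [this] with x hx
    rwa [Real.dist_eq, sub_zero] at hx
  obtain ⟨ζ, hζ, hζ'⟩ := Metric.eventually_nhds_iff.1 hev
  obtain ⟨a, k, hk, hr1, hr2⟩ := hRHO q (ζ / 2) hq (by positivity)
  obtain ⟨ρ, hρ⟩ : ∃ ρ : ℝ, ρ = (3 : ℝ) ^ (q * k) / 2 ^ a := ⟨_, rfl⟩
  rw [← hρ] at hr1 hr2
  have hρ0 : 0 < ρ := by rw [hρ]; positivity
  have hpow : ∀ l ∈ range K, |ρ ^ l - 1| < η := hζ' (by rw [Real.dist_eq]; linarith)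
  have hpl : ∀ l : ℕ, (3 : ℝ) ^ (q * k * l) / 2 ^ (a * l) = ρ ^ l := by
    intro l
    rw [hρ, div_pow, ← pow_mul, ← pow_mul]
  have hip : ∀ l : ℕ, (2 : ℝ) ^ (a * l) / 3 ^ (q * k * l) = (ρ ^ l)⁻¹ := by
    intro l
    rw [← hpl, inv_div]
  have hinv2 : ∀ l ∈ range K, (ρ ^ l)⁻¹ ≤ 2 := by
    intro l hl
    have h1 := (abs_lt.1 (hpow l hl)).1
    have h2 : (1 : ℝ) / 2 ≤ ρ ^ l := by linarith
    have := inv_anti₀ (by norm_num : (0 : ℝ) < 1 / 2) h2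
    have e : ((1 : ℝ) / 2)⁻¹ = 2 := by norm_num
    rwa [e] at this
  -- the differences of the frequencies
  have hne : ∀ p ∈ (range K ×ˢ range K).filter (fun p => p.1 ≠ p.2), 0 < |(ρ ^ p.1)⁻¹ - (ρ ^ p.2)⁻¹| := by
    intro p hp
    rw [mem_filter] at hp
    rw [abs_pos, sub_ne_zero]
    intro h
    exact hp.2 (pow_right_injective₀ hρ0 hr2 (inv_injective h))
  obtain ⟨c, hc, hcl⟩ := exists_lower _ _ hne
  -- the parameters
  obtain ⟨Mx, hMx⟩ : ∃ Mx : ℝ, Mx = 2 ^ (a * K) := ⟨_, rfl⟩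
  have hMx0 : 0 < Mx := by rw [hMx]; positivity
  obtain ⟨c₀, hc₀⟩ : ∃ c₀ : ℝ, c₀ = min (1 / 16) (ε / (56 * C * Mx)) := ⟨_, rfl⟩
  have hc₀0 : 0 < c₀ := by rw [hc₀]; exact lt_min (by norm_num) (by positivity)
  refine ⟨c₀, 2 * C ^ 2 / (c * ε ^ 2), hc₀0, by positivity, ?_⟩
  have htr : ∀ᶠ N : ℕ in atTop, ∀ l ∈ range K, ∀ α : ℝ, ‖S f N α - S f N (α * (2 ^ (a * l) / 3 ^ (q * k * l)))‖ ≤
      (ε / 8 + 2 * C * η + 7 * C * |α| * 2 ^ (a * l)) * N := by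
    refine (eventually_all_finset (range K)).2 fun l hl => ?_
    refine transfer hC0.le hC hI (Dvd.intro (k * l) (by ring)) ?_ (by positivity)
    rw [hpl]
    exact (hpow l hl).le
  filter_upwards [htr, eventually_gt_atTop 0] with N hN hN0 α hα1 hα2
  have hN0' : (0 : ℝ) < N := by exact_mod_cast hN0
  have hα0 : 0 < |α| := by
    have h1 : 0 < |α| * N := lt_of_lt_of_le (by positivity) hα1
    exact (pos_iff_pos_of_mul_pos h1).2 hN0'
  -- each frequency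
  have hl1 : ∀ l ∈ range K, ‖S f N α - S f N (α * (ρ ^ l)⁻¹)‖ ≤ 3 * ε / 8 * N := by
    intro l hl
    have h1 := hN l hl α
    rw [hip] at h1
    refine h1.trans (mul_le_mul_of_nonneg_right ?_ hN0'.le)
    have h2 : (2 : ℝ) ^ (a * l) ≤ Mx := by
      rw [hMx]
      exact pow_le_pow_right₀ (by norm_num) (Nat.mul_le_mul_left _ (mem_range.1 hl).le)
    have h3 : |α| ≤ ε / (56 * C * Mx) := hα2.trans (by rw [hc₀]; exact min_le_right _ _)
    have h4 : 7 * C * |α| * 2 ^ (a * l) ≤ ε / 8 := by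
      calc 7 * C * |α| * 2 ^ (a * l) ≤ 7 * C * (ε / (56 * C * Mx)) * Mx := by gcongr
        _ = ε / 8 := by field_simp; ring
    linarith
  -- Bessel
  have hb := hBES K N (fun l => α * (ρ ^ l)⁻¹) (c * |α|) C f (by positivity) hC0.le hC (fun l hl => by
      have h1 := hinv2 l (mem_range.2 hl)
      have h2 : 0 < (ρ ^ l)⁻¹ := by positivity
      rw [abs_mul, abs_of_pos h2]
      have h3 : |α| ≤ 1 / 16 := hα2.trans (by rw [hc₀]; exact min_le_left _ _)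
      calc |α| * (ρ ^ l)⁻¹ ≤ 1 / 16 * 2 := by gcongr
        _ = 1 / 8 := by norm_num) (fun l hl l' hl' hll => by
      have h1 := hcl (l, l') (by
        rw [mem_filter, mem_product]
        exact ⟨⟨mem_range.2 hl, mem_range.2 hl'⟩, hll⟩)
      rw [← mul_sub, abs_mul, mul_comm c]
      exact mul_le_mul_of_nonneg_left h1 hα0.le)
  -- the sum
  have hsum : (K : ℝ) * ‖S f N α‖ ≤ ‖∑ l ∈ range K, S f N (α * (ρ ^ l)⁻¹)‖ + K * (3 * ε / 8 * N) := by
    have e : (K : ℂ) * S f N α = ∑ l ∈ range K, S f N (α * (ρ ^ l)⁻¹) +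
        ∑ l ∈ range K, (S f N α - S f N (α * (ρ ^ l)⁻¹)) := by
      rw [Finset.sum_sub_distrib, Finset.sum_const, card_range, nsmul_eq_mul]
      ring
    have e2 : (K : ℝ) * ‖S f N α‖ = ‖(K : ℂ) * S f N α‖ := by
      rw [norm_mul, Complex.norm_natCast]
    rw [e2, e]
    refine (norm_add_le _ _).trans (add_le_add le_rfl ?_)
    refine (norm_sum_le _ _).trans ((Finset.sum_le_sum hl1).trans (le_of_eq ?_))
    rw [Finset.sum_const, card_range, nsmul_eq_mul]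
  have hsq : ‖∑ l ∈ range K, S f N (α * (ρ ^ l)⁻¹)‖ ≤ K * (ε / 2 * N) := by
    refine le_of_sq_le_sq ?_ (by positivity)
    refine hb.trans ?_
    have h1 : (K : ℝ) ^ 2 / (4 * (c * |α|)) ≤ K ^ 2 * (ε ^ 2 / (8 * C ^ 2)) * N := by
      rw [div_le_iff₀ (by positivity)]
      have h2 : 2 * C ^ 2 / (c * ε ^ 2) * (c * ε ^ 2) ≤ |α| * N * (c * ε ^ 2) :=
        mul_le_mul_of_nonneg_right hα1 (by positivity)
      have h3 : 2 * C ^ 2 / (c * ε ^ 2) * (c * ε ^ 2) = 2 * C ^ 2 := by field_simp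
      rw [h3] at h2
      have h4 : (1 : ℝ) ≤ ε ^ 2 / (8 * C ^ 2) * N * (4 * (c * |α|)) := by
        have e : ε ^ 2 / (8 * C ^ 2) * N * (4 * (c * |α|)) = (|α| * N * (c * ε ^ 2)) / (2 * C ^ 2) := by
          field_simp; ring
        rw [e, le_div_iff₀ (by positivity)]
        linarith
      calc (K : ℝ) ^ 2 = K ^ 2 * 1 := (mul_one _).symm
        _ ≤ K ^ 2 * (ε ^ 2 / (8 * C ^ 2) * N * (4 * (c * |α|))) := mul_le_mul_of_nonneg_left h4 (by positivity)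
        _ = _ := by ring
    have h5 : (K : ℝ) * N ≤ K ^ 2 * (ε ^ 2 / (8 * C ^ 2)) * N := by
      have h6 : (1 : ℝ) ≤ K * (ε ^ 2 / (8 * C ^ 2)) := by
        have : 8 * C ^ 2 / ε ^ 2 * (ε ^ 2 / (8 * C ^ 2)) ≤ K * (ε ^ 2 / (8 * C ^ 2)) :=
          mul_le_mul_of_nonneg_right hK.le (by positivity)
        have e : 8 * C ^ 2 / ε ^ 2 * (ε ^ 2 / (8 * C ^ 2)) = 1 := by field_simp
        rwa [e] at this
      calc (K : ℝ) * N = K * 1 * N := by ring
        _ ≤ K * (K * (ε ^ 2 / (8 * C ^ 2))) * N := by gcongr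
        _ = _ := by ring
    calc C ^ 2 * N * (K * N + K ^ 2 / (4 * (c * |α|))) ≤
        C ^ 2 * N * (K ^ 2 * (ε ^ 2 / (8 * C ^ 2)) * N + K ^ 2 * (ε ^ 2 / (8 * C ^ 2)) * N) := by gcongr
      _ = (K * (ε / 2 * N)) ^ 2 := by field_simp; ring
  have h7 : (K : ℝ) * ‖S f N α‖ ≤ K * (ε * N) := by
    refine (hsum.trans (add_le_add hsq le_rfl)).trans ?_
    have : 0 ≤ K * (ε * N) := by positivity
    have e : (K : ℝ) * (ε / 2 * N) + K * (3 * ε / 8 * N) = 7 / 8 * (K * (ε * N)) := by ring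
    rw [e]
    linarith
  exact le_of_mul_le_mul_left h7 hK0

end Pool.Agent.L0h87.LE
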