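import Pool.Agent.L0h87.LE.StmH
import Pool.Agent.Results.MP_2b866c_nt.HeightNeighbours

set_option autoImplicit false

/-!
# The near invariance of the heights, from `HeightNeighbours`
-/

namespace Pool.Agent.L0h87.LE

open Finset Filter Topology
open Pool.Agent.Results.MP_2b866c_nt (HeightNeighbours.height HeightNeighbours.κ HeightNeighbours.Linked)

open Classical in
theorem card_odd_set (N : ℕ) (P : ℕ → Prop) :
    {m : ℕ | m ≤ N ∧ Odd m ∧ P m}.ncard = ((odds N).filter P).card := by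
  have e : {m : ℕ | m ≤ N ∧ Odd m ∧ P m} = (((odds N).filter P : Finset ℕ) : Set ℕ) := by
    ext m
    simp only [Set.mem_ofPred_eq, coe_filter, odds, mem_filter, mem_Icc]
    constructor
    · rintro ⟨h1, h2, h3⟩
      have := Nat.odd_iff.1 h2
      exact ⟨⟨⟨by omega, h1⟩, this⟩, h3⟩
    · rintro ⟨⟨⟨h1, h2⟩, h3⟩, h4⟩
      exact ⟨h2, Nat.odd_iff.2 h3, h4⟩
  rw [e, Set.ncard_coe_finset]

open Classical in
theorem AA_of {P : ℕ → Prop} (h : HasOddDensity P 1) {A : ℕ} (hA : 1 ≤ A) : AA (fun i => P (2 * A * i + 1)) := by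
  intro ε hε
  have hA0 : (0 : ℝ) < A := by exact_mod_cast hA
  obtain ⟨N₀, hN₀⟩ := eventually_atTop.1 ((Metric.tendsto_nhds.1 h) (ε / A) (by positivity))
  refine ⟨max N₀ 1, fun I hI => ?_⟩
  have hI1 : 1 ≤ I := (le_max_right _ _).trans hI
  have hI0 : (0 : ℝ) < I := by exact_mod_cast hI1
  have hN : N₀ ≤ 2 * A * I := by
    refine ((le_max_left _ _).trans hI).trans ?_
    exact Nat.le_mul_of_pos_left _ (by omega)
  have h1 := hN₀ _ hN
  rw [Real.dist_eq, card_odd_set] at h1
  set G := ((odds (2 * A * I)).filter P).card with hG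
  have hcard : (odds (2 * A * I)).card = A * I := by
    have := Finset.card_eq_sum_ones (odds (2 * A * I))
    rw [this]
    have h2 : ∑ n ∈ odds (2 * A * I), 1 = ∑ j ∈ range ((2 * A * I + 1) / 2), 1 := by
      symm
      refine Finset.sum_bij (fun j _ => 2 * j + 1) ?_ ?_ ?_ ?_
      · intro j hj
        rw [mem_range] at hj
        rw [odds, mem_filter, mem_Icc]
        omega
      · intro j _ j' _ h
        omega
      · intro n hn
        rw [odds, mem_filter, mem_Icc] at hn
        exact ⟨n / 2, by rw [mem_range]; omega, by omega⟩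
      · intro j _
        rfl
    rw [h2, Finset.sum_const, card_range, smul_eq_mul, mul_one]
    have : 2 * A * I = 2 * (A * I) := by ring
    omega
  have hsplit : G + ((odds (2 * A * I)).filter (fun n => ¬ P n)).card = A * I := by
    rw [hG, ← hcard]
    exact Finset.card_filter_add_card_filter_not _
  have hinj : ((range I).filter (fun i => ¬ P (2 * A * i + 1))).card ≤
      ((odds (2 * A * I)).filter (fun n => ¬ P n)).card := by
    refine Finset.card_le_card_of_injOn (fun i => 2 * A * i + 1) ?_ ?_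
    · intro i hi
      rw [coe_filter, Set.mem_ofPred_eq, mem_range] at hi
      rw [coe_filter, Set.mem_ofPred_eq, odds, mem_filter, mem_Icc]
      refine ⟨⟨⟨Nat.le_add_left 1 (2 * A * i), ?_⟩, ?_⟩, hi.2⟩
      · have h3 : 2 * A * (i + 1) ≤ 2 * A * I := Nat.mul_le_mul_left _ hi.1
        have h4 : 2 * A * (i + 1) = 2 * A * i + 2 * A := by ring
        change 2 * A * i + 1 ≤ 2 * A * I
        omega
      · have h3 : 2 * A * i = 2 * (A * i) := by ring
        change (2 * A * i + 1) % 2 = 1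
        rw [h3]
        omega
    · intro i _ j _ hij
      have h3 : 2 * A * i = 2 * A * j := by
        have : 2 * A * i + 1 = 2 * A * j + 1 := hij
        omega
      exact Nat.eq_of_mul_eq_mul_left (by omega) h3
  have hs' : (G : ℝ) + (((odds (2 * A * I)).filter (fun n => ¬ P n)).card : ℝ) = A * I := by exact_mod_cast hsplit
  have hi' : (((range I).filter (fun i => ¬ P (2 * A * i + 1))).card : ℝ) ≤
      ((odds (2 * A * I)).filter (fun n => ¬ P n)).card := by exact_mod_cast hinj
  have h5 := (abs_lt.1 h1).1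
  push_cast at h5
  have h6 : 1 - 2 / (2 * (A : ℝ) * I) * G < ε / A := by linarith
  have h7 : (A * I : ℝ) - G < ε * I := by
    have h8 := mul_lt_mul_of_pos_right h6 (by positivity : (0 : ℝ) < A * I)
    have e1 : (1 - 2 / (2 * (A : ℝ) * I) * G) * (A * I) = A * I - G := by field_simp
    have e2 : ε / A * (A * I) = ε * I := by field_simp
    rwa [e1, e2] at h8
  linarith

theorem AA.mono {P Q : ℕ → Prop} (h : AA P) {i₀ : ℕ} (hPQ : ∀ i, i₀ ≤ i → P i → Q i) : AA Q := by
  classical
  intro ε hε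
  obtain ⟨I₀, hI₀⟩ := h (ε / 2) (by positivity)
  obtain ⟨I₁, hI₁⟩ := exists_nat_gt (2 * i₀ / ε)
  refine ⟨max I₀ I₁, fun I hI => ?_⟩
  have h1 := hI₀ I ((le_max_left _ _).trans hI)
  have h2 : (i₀ : ℝ) ≤ ε / 2 * I := by
    have h3 : (2 * i₀ / ε : ℝ) ≤ I := hI₁.le.trans (by exact_mod_cast (le_max_right _ _).trans hI)
    rw [div_le_iff₀ hε] at h3
    linarith
  have h4 : ((range I).filter (fun i => ¬ Q i)).card ≤ ((range I).filter (fun i => ¬ P i)).card + i₀ := by
    have h5 : (range I).filter (fun i => ¬ Q i) ⊆ (range I).filter (fun i => ¬ P i) ∪ range i₀ := by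
      intro i hi
      simp only [mem_union, mem_filter, mem_range] at hi ⊢
      by_cases h6 : i < i₀
      · exact Or.inr h6
      · exact Or.inl ⟨hi.1, fun hP => hi.2 (hPQ i (not_lt.1 h6) hP)⟩
    refine (card_le_card h5).trans ((card_union_le _ _).trans ?_)
    rw [card_range]
  have h7 : (((range I).filter (fun i => ¬ Q i)).card : ℝ) ≤ ((range I).filter (fun i => ¬ P i)).card + i₀ := by
    exact_mod_cast h4
  have e : (fun i => ¬ Q i) = (fun i => ¬ Q i) := rfl
  calc _ ≤ (((range I).filter (fun i => ¬ P i)).card : ℝ) + i₀ := by convert h7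
    _ ≤ ε / 2 * I + ε / 2 * I := by
        refine add_le_add ?_ h2
        convert h1
    _ = ε * I := by ring

theorem kappa_tendsto : Tendsto HeightNeighbours.κ atTop atTop := by
  have h1 : Tendsto (fun y : ℝ => √y / Real.log y ^ 16) atTop atTop := by
    have h2 : (fun y : ℝ => Real.log y ^ 16) =o[atTop] fun y : ℝ => √y := by
      have h3 := isLittleO_log_rpow_rpow_atTop (s := 1 / 2) 16 (by norm_num)
      refine h3.congr' ?_ ?_
      · filter_upwards with y
        have : (16 : ℝ) = ((16 : ℕ) : ℝ) := by norm_num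
        rw [this, Real.rpow_natCast]
      · filter_upwards with y
        rw [Real.sqrt_eq_rpow]
    have h4 := h2.tendsto_div_nhds_zero
    have h5 : ∀ᶠ y : ℝ in atTop, 0 < Real.log y ^ 16 / √y := by
      filter_upwards [eventually_gt_atTop 1] with y hy
      have := Real.log_pos hy
      positivity
    have h6 : Tendsto (fun y : ℝ => (Real.log y ^ 16 / √y)⁻¹) atTop atTop :=
      (tendsto_nhdsWithin_iff.2 ⟨h4, h5⟩).inv_tendsto_nhdsGT_zero
    refine h6.congr fun y => ?_
    rw [inv_div]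
  have h7 : Tendsto (fun n : ℕ => Real.log (n : ℝ)) atTop atTop :=
    Real.tendsto_log_atTop.comp tendsto_natCast_atTop_atTop
  exact h1.comp h7

theorem NBR : NB HeightNeighbours.height := by
  intro a b
  have hres : HasOddDensity (fun n => ∀ m a b a' b' : ℕ, Odd m → HeightNeighbours.Linked n m a b a' b' →
    HeightNeighbours.height m + b' = HeightNeighbours.height n + b) 1 :=
    Pool.Agent.Results.MP_2b866c_nt.HeightNeighbours.result
  have hA := AA_of hres (A := 2 ^ a) Nat.one_le_two_pow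
  obtain ⟨D, hD⟩ : ∃ D : ℝ, D = 2 ^ a * (2 * 3 ^ b + 2 * 2 ^ a + 1) + 3 ^ b + a + b := ⟨_, rfl⟩
  have hDa : (a : ℝ) ≤ D := by rw [hD]; have : (0 : ℝ) ≤ 2 ^ a * (2 * 3 ^ b + 2 * 2 ^ a + 1) + 3 ^ b + b := by positivity
                               linarith
  have hDb : (b : ℝ) ≤ D := by rw [hD]; have : (0 : ℝ) ≤ 2 ^ a * (2 * 3 ^ b + 2 * 2 ^ a + 1) + 3 ^ b + a := by positivity
                               linarith
  have hD0 : 0 ≤ D := (Nat.cast_nonneg a).trans hDa
  obtain ⟨n₀, hn₀⟩ := eventually_atTop.1 (kappa_tendsto.eventually_ge_atTop D)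
  have hbig : ∀ i : ℕ, n₀ ≤ i → D ≤ HeightNeighbours.κ (2 * 2 ^ a * i + 1) := by
    intro i hi
    apply hn₀
    have : 1 ≤ 2 ^ a := Nat.one_le_two_pow
    nlinarith
  refine ⟨fun s hs => hA.mono (i₀ := n₀) fun i hi hP => ?_, fun s hs => hA.mono (i₀ := n₀) fun i hi hP => ?_⟩
  · have hk := hbig i hi
    have h1 := hP (2 * 2 ^ a * i + 2 * s + 1) 0 0 0 0 ⟨2 ^ a * i + s, by ring⟩ ⟨by simpa using hD0.trans hk,
      by simpa using hD0.trans hk, by simpa using hD0.trans hk, by simpa using hD0.trans hk, ?_⟩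
    · simpa using h1
    · have e : ((2 ^ 0 * 3 ^ 0 * ((2 * 2 ^ a * i + 2 * s + 1 : ℕ) : ℤ) -
          2 ^ 0 * 3 ^ 0 * ((2 * 2 ^ a * i + 1 : ℕ) : ℤ) : ℤ) : ℝ) = 2 * s := by
        push_cast
        ring
      rw [e, abs_of_nonneg (by positivity)]
      have hs' : (s : ℝ) ≤ 2 ^ a := by exact_mod_cast hs.le
      have h3 : 2 * (s : ℝ) ≤ D := by
        rw [hD]
        have h4 : (1 : ℝ) ≤ 2 ^ a := one_le_pow₀ (by norm_num)
        have h5 : (0 : ℝ) ≤ 2 ^ a * (2 * 3 ^ b + 1) + 3 ^ b + a + b := by positivity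
        nlinarith
      linarith [Real.add_one_le_exp (HeightNeighbours.κ (2 * 2 ^ a * i + 1))]
  · have hk := hbig i hi
    have h1 := hP (2 * 3 ^ b * i + 2 * s + 1) a 0 0 b ⟨3 ^ b * i + s, by ring⟩ ⟨hDa.trans hk,
      by simpa using hD0.trans hk, by simpa using hD0.trans hk, hDb.trans hk, ?_⟩
    · simpa using h1
    · have e : ((2 ^ a * 3 ^ 0 * ((2 * 3 ^ b * i + 2 * s + 1 : ℕ) : ℤ) -
          2 ^ 0 * 3 ^ b * ((2 * 2 ^ a * i + 1 : ℕ) : ℤ) : ℤ) : ℝ) = 2 ^ a * (2 * s + 1) - 3 ^ b := by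
        push_cast
        ring
      rw [e]
      have hs' : (s : ℝ) ≤ 3 ^ b := by exact_mod_cast hs.le
      have h3 : |(2 : ℝ) ^ a * (2 * s + 1) - 3 ^ b| ≤ D := by
        refine (abs_sub _ _).trans ?_
        rw [abs_of_nonneg (by positivity), abs_of_nonneg (by positivity), hD]
        have h4 : (2 : ℝ) ^ a * (2 * s + 1) ≤ 2 ^ a * (2 * 3 ^ b + 2 * 2 ^ a + 1) := by
          refine mul_le_mul_of_nonneg_left ?_ (by positivity)
          have : (0 : ℝ) ≤ 2 * 2 ^ a := by positivity
          linarith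
        have h5 : (0 : ℝ) ≤ (a : ℝ) + b := by positivity
        linarith
      linarith [Real.add_one_le_exp (HeightNeighbours.κ (2 * 2 ^ a * i + 1))]

end Pool.Agent.L0h87.LE
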