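import Pool.Agent.L0h87.LE.Stm

set_option autoImplicit false

/-!
# Heights of the 3x+1 map in linear equations: sums of two odd integers
-/

namespace Pool.Agent.L0h87.LE

open Finset Filter Topology

/-- weighted number of representations of `n` as a sum of two odd integers up to `N` -/
noncomputable def rep (N n : ℕ) (u v : ℕ → ℝ) : ℝ :=
  ∑ m ∈ odds N, ∑ m' ∈ odds N, if m + m' = n then u m * v m' else 0

/-- REP (100 lines). `∑_{m + m' = m'' + m'''} u v w z = ∑_n rep u v * rep w z`. -/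
def REP : Prop := ∀ (N : ℕ) (u v w z : ℕ → ℝ),
  G ![1, 1, -1, -1] N 0 ![u, v, w, z] = ∑ n ∈ range (2 * N + 1), rep N n u v * rep N n w z

/-- BIN (60 lines, from REP). Expand the square. -/
def BIN : Prop := ∀ (N : ℕ) (u v : ℕ → ℝ) (p E : ℝ),
  |G ![1, 1, -1, -1] N 0 ![u, v, u, v] - p ^ 2 * G ![1, 1, -1, -1] N 0 ![1, 1, 1, 1]| ≤ E →
  |G ![1, 1, -1, -1] N 0 ![u, v, 1, 1] - p * G ![1, 1, -1, -1] N 0 ![1, 1, 1, 1]| ≤ E →
  ∑ n ∈ range (2 * N + 1), (rep N n u v - p * rep N n 1 1) ^ 2 ≤ (1 + 2 * |p|) * E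

end Pool.Agent.L0h87.LE
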