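import Pool.Agent.L0h87.LE.Stm

set_option autoImplicit false

/-!
# Heights of the 3x+1 map in linear equations: numbers of solutions
-/

namespace Pool.Agent.L0h87.LE

open Finset Filter Topology

/-- the solutions of `∑ a_i m_i = n` in odd integers up to `N` -/
def sol {k : ℕ} (a : Fin k → ℤ) (N : ℕ) (n : ℤ) : Finset (Fin k → ℕ) :=
  (Fintype.piFinset fun _ : Fin k => odds N).filter (fun m => ∑ i, a i * (m i : ℤ) = n)

/-- AP3 (60 lines). E.g. `m 0`, `m 2` congruent to `1` modulo `4`, `m 1 = (m 0 + m 2) / 2`. -/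
def AP3 : Prop := ∀ N : ℕ, 8 ≤ N → (N : ℝ) ^ 2 / 64 ≤ ((sol ![1, -2, 1] N 0).card : ℝ)

/-- SM3 (60 lines). E.g. `m 0`, `m 1` odd and at most `(n - 1) / 2`. -/
def SM3 : Prop := ∀ n : ℕ, n % 2 = 1 → 9 ≤ n → (n : ℝ) ^ 2 / 64 ≤ ((sol ![1, 1, 1] n n).card : ℝ)

end Pool.Agent.L0h87.LE
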