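import Pool.Agent.L0h87.LE.Stm

set_option autoImplicit false

/-!
# Heights of the 3x+1 map in linear equations: the heights

`h` is the height function (odd integers to `ℕ∞`), but only the listed properties of `h` are used.
-/

namespace Pool.Agent.L0h87.LE

open Finset Filter Topology

/-- among the odd positive integers, those with the property `P` have the natural density `δ` -/
def HasOddDensity (P : ℕ → Prop) (δ : ℝ) : Prop :=
  Tendsto (fun N : ℕ => 2 / (N : ℝ) * ({m : ℕ | m ≤ N ∧ Odd m ∧ P m}.ncard : ℝ)) atTop (𝓝 δ)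

/-- `2 / log (16/9) * log m + x * log 2 * √(2 log m / (log (4/3))^3)` -/
noncomputable def bound (x : ℝ) (m : ℕ) : ℝ :=
  2 / Real.log (16 / 9) * Real.log m
    + x * (Real.log 2 * Real.sqrt (2 * Real.log m / Real.log (4 / 3) ^ 3))

/-- The distribution function of the standard normal law. -/
noncomputable def Phi (x : ℝ) : ℝ :=
  ProbabilityTheory.cdf (ProbabilityTheory.gaussianReal 0 1) x

/-- The height of `m` is finite, at most `bound x m` and congruent to `b` modulo `q`. -/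
def LevelH (h : ℕ → ℕ∞) (q : ℕ) (b : ℤ) (x : ℝ) (m : ℕ) : Prop :=
  ∃ k : ℕ, h m = k ∧ (k : ℝ) ≤ bound x m ∧ (k : ℤ) ≡ b [ZMOD q]

open Classical in
/-- almost all `i` have the property `P` -/
def AA (P : ℕ → Prop) : Prop := ∀ ε : ℝ, 0 < ε → ∃ I₀ : ℕ, ∀ I : ℕ, I₀ ≤ I →
  (((range I).filter (fun i => ¬ P i)).card : ℝ) ≤ ε * I

/-- the near invariance of the heights -/
def NB (h : ℕ → ℕ∞) : Prop := ∀ a b : ℕ,
  (∀ s < 2 ^ a, AA (fun i => h (2 * 2 ^ a * i + 2 * s + 1) = h (2 * 2 ^ a * i + 1))) ∧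
  ∀ s < 3 ^ b, AA (fun i => h (2 * 3 ^ b * i + 2 * s + 1) + b = h (2 * 2 ^ a * i + 1))

/-! ### Module statements -/

open Classical in
/-- MZD (50 lines): a density gives mean value zero. -/
def MZD : Prop := ∀ (P : ℕ → Prop) (δ : ℝ), HasOddDensity P δ → MZ (fun n => (if P n then 1 else 0) - δ)

open Classical in
/-- INF (50 lines): `h (m) + b = ⊤ ↔ h (m) = ⊤`. -/
def INF : Prop := ∀ h : ℕ → ℕ∞, NB h → ∀ v : ℝ, Inv 1 (fun n => (if h n = ⊤ then 1 else 0) - v)

open Classical in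
/-- LVI (200 lines). Put `n = 2 * 2 ^ a * i + 1`, `m = 2 M i + 2 s + 1`. If `h (m) + b' = h (n)` (`b' = 0` or `b' = b`), `q ∣ b`,
and exactly one of `m`, `n` is in the level set, then `h n` is finite and `|h n - bound x n| ≤ C'`
(`|bound x m - bound x n|` is bounded because `m / n` and `n / m` are bounded); the odd `n` with this
property have density zero, since for large `n` they satisfy `LevelH h 1 0 (x + η)` and not
`LevelH h 1 0 (x - η)`, and `Phi` is continuous. -/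
def LVI : Prop := ∀ (h : ℕ → ℕ∞) (δ : ℝ), NB h → (∀ x, HasOddDensity (LevelH h 1 0 x) (δ * Phi x)) →
  ∀ (q : ℕ) (b : ℤ) (x v : ℝ), 1 ≤ q → Inv q (fun n => (if LevelH h q b x n then 1 else 0) - v)

open Classical in
/-- AVG (150 lines). For all but few odd `m ≤ N` the number `min (h m, ⌊Λ log N⌋) / log N` is within `ε` of
`Λ 1[h m = ⊤] + c 1[h m ≠ ⊤]`, `c = 2 / log (16/9)`; it is always at most `Λ`. -/
def AVG : Prop := ∀ (h : ℕ → ℕ∞) (δ : ℝ), FU (fun n => (if h n = ⊤ then 1 else 0) - (1 - δ)) →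
  HasOddDensity (fun m => h m ≠ ⊤) δ →
  (∀ η : ℝ, 0 < η → HasOddDensity (fun m => ∃ k : ℕ, h m = k ∧
    |(k : ℝ) - 2 / Real.log (16 / 9) * Real.log m| ≤ η * Real.log m) δ) →
  ∀ Λ : ℝ, 2 / Real.log (16 / 9) < Λ → ∀ ε : ℝ, 0 < ε → ∃ N₀ : ℕ, ∀ N : ℕ, N₀ ≤ N → ∀ α : ℝ,
    ‖S (fun m => ((min (h m) (⌊Λ * Real.log N⌋₊ : ℕ∞)).toNat : ℝ) / Real.log N -
      (δ * (2 / Real.log (16 / 9)) + (1 - δ) * Λ)) N α‖ ≤ ε * N

end Pool.Agent.L0h87.LE
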