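import Pool.Agent.L0h87.LE.Bas

set_option autoImplicit false

/-!
# The frequencies `α` and `α 2^a / 3^b`
-/

namespace Pool.Agent.L0h87.LE

open Finset Filter Topology

variable {q : ℕ} {f : ℕ → ℝ} {C : ℝ}

theorem DD_small (hI : Inv q f) {a b : ℕ} (hb : q ∣ b) {M : ℕ} (hM : M = 2 ^ a ∨ M = 3 ^ b) {ε : ℝ} (hε : 0 < ε) :
    ∀ᶠ I : ℕ in atTop, DD f (2 ^ a) M I ≤ ε * I := by
  have hM0 : 0 < M := by
    rcases hM with h | h <;> rw [h] <;> positivity
  have hM0' : (0 : ℝ) < M := by exact_mod_cast hM0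
  have h1 : ∀ s ∈ range M, ∀ᶠ I : ℕ in atTop,
      ∑ i ∈ range I, |f (2 * M * i + 2 * s + 1) - f (2 * 2 ^ a * i + 1)| ≤ ε / M * I := by
    intro s hs
    obtain ⟨I₀, h⟩ := hI a b hb M hM s (mem_range.1 hs) (ε / M) (by positivity)
    filter_upwards [eventually_ge_atTop I₀] with I hI
    exact h I hI
  filter_upwards [(eventually_all_finset (range M)).2 h1] with I h
  unfold DD
  refine (Finset.sum_le_sum h).trans (le_of_eq ?_)
  rw [Finset.sum_const, card_range, nsmul_eq_mul]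
  field_simp

theorem transfer (hC0 : 0 ≤ C) (hC : ∀ n, |f n| ≤ C) (hI : Inv q f) {a b : ℕ} (hb : q ∣ b) {η : ℝ}
    (hη : |(3 : ℝ) ^ b / 2 ^ a - 1| ≤ η) {ε : ℝ} (hε : 0 < ε) :
    ∀ᶠ N : ℕ in atTop, ∀ α : ℝ, ‖S f N α - S f N (α * (2 ^ a / 3 ^ b))‖ ≤
      (ε + 2 * C * η + 7 * C * |α| * 2 ^ a) * N := by
  obtain ⟨A, hA⟩ : ∃ A : ℕ, A = 2 ^ a := ⟨_, rfl⟩
  obtain ⟨B, hB⟩ : ∃ B : ℕ, B = 3 ^ b := ⟨_, rfl⟩
  obtain ⟨X, hX⟩ : ∃ X : ℕ, X = max A B := ⟨_, rfl⟩
  have hA0 : 0 < A := by rw [hA]; positivity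
  have hB0 : 0 < B := by rw [hB]; positivity
  have hAX : A ≤ X := by rw [hX]; exact le_max_left _ _
  have hBX : B ≤ X := by rw [hX]; exact le_max_right _ _
  have hAr : (A : ℝ) = 2 ^ a := by rw [hA]; push_cast; rfl
  have hBr : (B : ℝ) = 3 ^ b := by rw [hB]; push_cast; rfl
  rw [← hAr, ← hBr] at hη
  simp only [← hAr, ← hBr]
  have hA0' : (0 : ℝ) < A := by exact_mod_cast hA0
  have hB0' : (0 : ℝ) < B := by exact_mod_cast hB0
  have hAX' : (A : ℝ) ≤ X := by exact_mod_cast hAX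
  have hBX' : (B : ℝ) ≤ X := by exact_mod_cast hBX
  have hX0 : (0 : ℝ) < X := hA0'.trans_le hAX'
  have hη0 : 0 ≤ η := (abs_nonneg _).trans hη
  have hD : |(B : ℝ) - A| ≤ η * A := by
    have : (B : ℝ) - A = (B / A - 1) * A := by field_simp
    rw [this, abs_mul, abs_of_pos hA0']
    exact mul_le_mul_of_nonneg_right hη hA0'.le
  have hXA : (X : ℝ) - A ≤ η * A := by
    refine le_trans ?_ hD
    rw [hX, Nat.cast_max]
    rcases le_total (A : ℝ) B with h | h
    · rw [max_eq_right h]; exact le_abs_self _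
    · rw [max_eq_left h, sub_self]; exact abs_nonneg _
  have hXB : (X : ℝ) - B ≤ η * A := by
    refine le_trans ?_ hD
    rw [hX, Nat.cast_max]
    rcases le_total (A : ℝ) B with h | h
    · rw [max_eq_right h, sub_self]; exact abs_nonneg _
    · rw [max_eq_left h, ← abs_neg, neg_sub]; exact le_abs_self _
  have d1 := DD_small (a := a) hI hb (M := A) (Or.inl hA) (ε := ε / 4) (by positivity)
  have d2 := DD_small (a := a) hI hb (M := B) (Or.inr hB) (ε := ε / 4) (by positivity)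
  rw [← hA] at d1 d2
  obtain ⟨I₀, hI₀⟩ := eventually_atTop.1 (d1.and d2)
  have hlarge : ∀ᶠ N : ℕ in atTop, C * (1 + 2 * X) ≤ ε / 2 * N := by
    have h1 : Tendsto (fun N : ℕ => ε / 2 * (N : ℝ)) atTop atTop :=
      tendsto_natCast_atTop_atTop.const_mul_atTop (by positivity)
    exact h1.eventually_ge_atTop _
  filter_upwards [eventually_ge_atTop (2 * X * (I₀ + 1)), hlarge] with N hN1 hN2 α
  have hX0n : 0 < 2 * X := by omega
  obtain ⟨I, hIdef⟩ : ∃ I, I = N / (2 * X) := ⟨_, rfl⟩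
  have i1 : 2 * X * I ≤ N := by rw [hIdef]; exact Nat.mul_div_le N (2 * X)
  have i2 : N ≤ 2 * X * (I + 1) := by
    rw [hIdef]
    exact (Nat.lt_mul_div_succ N hX0n).le
  have i3 : I₀ ≤ I := by
    rw [hIdef, Nat.le_div_iff_mul_le hX0n]
    refine le_trans ?_ hN1
    rw [mul_comm]
    exact Nat.mul_le_mul_left _ (Nat.le_succ _)
  obtain ⟨d1, d2⟩ := hI₀ I i3
  have j1 : 2 * (X : ℝ) * I ≤ N := by exact_mod_cast i1
  have j2 : (N : ℝ) ≤ 2 * X * (I + 1) := by exact_mod_cast i2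
  have hI0 : (0 : ℝ) ≤ I := Nat.cast_nonneg _
  have hN0 : (0 : ℝ) ≤ N := Nat.cast_nonneg _
  have hIN : (I : ℝ) ≤ N := by
    have : (1 : ℝ) ≤ 2 * X := by
      have : (1 : ℝ) ≤ X := by
        have : 1 ≤ X := by omega
        exact_mod_cast this
      linarith
    have := mul_le_mul_of_nonneg_right this hI0
    linarith
  have hA1 : 2 * A * I ≤ N := (Nat.mul_le_mul_right _ (Nat.mul_le_mul_left _ hAX)).trans i1
  have hB1 : 2 * B * I ≤ N := (Nat.mul_le_mul_right _ (Nat.mul_le_mul_left _ hBX)).trans i1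
  have n1 := S_near hC A hA1 α
  have n2 := S_near hC A hB1 (α * (A / B))
  have ephase : 2 * (B : ℝ) * (α * (A / B)) = 2 * A * α := by field_simp
  rw [ephase] at n2
  have y1 := YY_sub A α
  have y2 := YY_sub B (α * (A / B))
  have x1 := XX_le hC A I (2 * A * α)
  set Z := XX f A I (2 * A * α) with hZ
  -- the middle difference
  have n3 : ‖Z * YY A α - Z * YY B (α * (A / B))‖ ≤
      C * I * (2 * Real.pi * |α| * A ^ 2 + η * A + 2 * Real.pi * |α * (A / B)| * B ^ 2) := by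
    rw [← mul_sub, norm_mul]
    refine mul_le_mul x1 ?_ (norm_nonneg _) (mul_nonneg hC0 hI0)
    have e : YY A α - YY B (α * (A / B)) = (YY A α - A) + ((A : ℂ) - B) + -(YY B (α * (A / B)) - B) := by ring
    rw [e]
    refine (norm_add_le _ _).trans (add_le_add ((norm_add_le _ _).trans (add_le_add y1 ?_)) ?_)
    · have : ((A : ℂ) - B) = (((A : ℝ) - B : ℝ) : ℂ) := by push_cast; rfl
      rw [this, Complex.norm_real, Real.norm_eq_abs, ← abs_neg, neg_sub]
      exact hD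
    · rw [norm_neg]
      exact y2
  have tot : ‖S f N α - S f N (α * (A / B))‖ ≤ (DD f A A I + C * ((N : ℝ) + 1 - 2 * A * I) / 2) +
      C * I * (2 * Real.pi * |α| * A ^ 2 + η * A + 2 * Real.pi * |α * (A / B)| * B ^ 2) +
      (DD f A B I + C * ((N : ℝ) + 1 - 2 * B * I) / 2) := by
    have e : S f N α - S f N (α * (A / B)) = (S f N α - Z * YY A α) +
      (Z * YY A α - Z * YY B (α * (A / B))) + -(S f N (α * (A / B)) - Z * YY B (α * (A / B))) := by ring
    rw [e]
    refine (norm_add_le _ _).trans (add_le_add ((norm_add_le _ _).trans (add_le_add n1 n3)) ?_)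
    rw [norm_neg]
    exact n2
  refine tot.trans ?_
  -- numerical part
  have e1 : |α * ((A : ℝ) / B)| * B ^ 2 = |α| * (A * B) := by
    rw [abs_mul, abs_of_pos (by positivity : (0 : ℝ) < A / B)]
    field_simp
  have t1 : (N : ℝ) + 1 - 2 * A * I ≤ 1 + 2 * X + η * N := by
    have h1 : 2 * (I : ℝ) * (X - A) ≤ 2 * I * (η * A) := mul_le_mul_of_nonneg_left hXA (by positivity)
    have h2 : 2 * (I : ℝ) * (η * A) ≤ η * N := by
      have : η * (2 * X * I) ≤ η * N := mul_le_mul_of_nonneg_left j1 hη0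
      have h3 : η * (2 * A * I) ≤ η * (2 * X * I) := by
        refine mul_le_mul_of_nonneg_left ?_ hη0
        refine mul_le_mul_of_nonneg_right ?_ hI0
        linarith
      linarith
    linarith
  have t2 : (N : ℝ) + 1 - 2 * B * I ≤ 1 + 2 * X + η * N := by
    have h1 : 2 * (I : ℝ) * (X - B) ≤ 2 * I * (η * A) := mul_le_mul_of_nonneg_left hXB (by positivity)
    have h2 : 2 * (I : ℝ) * (η * A) ≤ η * N := by
      have : η * (2 * X * I) ≤ η * N := mul_le_mul_of_nonneg_left j1 hη0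
      have h3 : η * (2 * A * I) ≤ η * (2 * X * I) := by
        refine mul_le_mul_of_nonneg_left ?_ hη0
        refine mul_le_mul_of_nonneg_right ?_ hI0
        linarith
      linarith
    linarith
  have t3 : (I : ℝ) * (η * A) ≤ η * N / 2 := by
    have : η * (2 * X * I) ≤ η * N := mul_le_mul_of_nonneg_left j1 hη0
    have h3 : η * (2 * A * I) ≤ η * (2 * X * I) := by
      refine mul_le_mul_of_nonneg_left ?_ hη0
      refine mul_le_mul_of_nonneg_right ?_ hI0
      linarith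
    linarith
  have hIA : (I : ℝ) * A ≤ N / 2 := by
    have : (A : ℝ) * I ≤ X * I := mul_le_mul_of_nonneg_right hAX' hI0
    linarith
  have hIB : (I : ℝ) * B ≤ N / 2 := by
    have : (B : ℝ) * I ≤ X * I := mul_le_mul_of_nonneg_right hBX' hI0
    linarith
  have t4 : (I : ℝ) * (2 * Real.pi * |α| * A ^ 2) ≤ Real.pi * |α| * A * N := by
    have h1 : 2 * Real.pi * |α| * A * (I * A) ≤ 2 * Real.pi * |α| * A * (N / 2) :=
      mul_le_mul_of_nonneg_left hIA (by positivity)
    calc (I : ℝ) * (2 * Real.pi * |α| * A ^ 2) = 2 * Real.pi * |α| * A * (I * A) := by ring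
      _ ≤ 2 * Real.pi * |α| * A * (N / 2) := h1
      _ = _ := by ring
  have t5 : (I : ℝ) * (2 * Real.pi * |α * (A / B)| * B ^ 2) ≤ Real.pi * |α| * A * N := by
    have h1 : 2 * Real.pi * |α| * A * (I * B) ≤ 2 * Real.pi * |α| * A * (N / 2) :=
      mul_le_mul_of_nonneg_left hIB (by positivity)
    calc (I : ℝ) * (2 * Real.pi * |α * (A / B)| * B ^ 2) = (I : ℝ) * (2 * Real.pi * (|α * (A / B)| * B ^ 2)) := by
          ring
      _ = 2 * Real.pi * |α| * A * (I * B) := by rw [e1]; ring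
      _ ≤ 2 * Real.pi * |α| * A * (N / 2) := h1
      _ = _ := by ring
  have hpi : Real.pi * |α| * A * N ≤ 7 / 2 * (|α| * A * N) := by
    have : Real.pi ≤ 7 / 2 := by
      have := Real.pi_lt_d2
      linarith
    have h1 : 0 ≤ |α| * A * N := by positivity
    have := mul_le_mul_of_nonneg_right this h1
    linarith
  have u1 : C * ((N : ℝ) + 1 - 2 * A * I) / 2 ≤ C * (1 + 2 * X + η * N) / 2 := by
    have := mul_le_mul_of_nonneg_left t1 hC0
    linarith
  have u2 : C * ((N : ℝ) + 1 - 2 * B * I) / 2 ≤ C * (1 + 2 * X + η * N) / 2 := by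
    have := mul_le_mul_of_nonneg_left t2 hC0
    linarith
  have u3 : C * I * (2 * Real.pi * |α| * A ^ 2 + η * A + 2 * Real.pi * |α * (A / B)| * B ^ 2) ≤
      C * (7 / 2 * (|α| * A * N) + η * N / 2 + 7 / 2 * (|α| * A * N)) := by
    rw [mul_assoc]
    refine mul_le_mul_of_nonneg_left ?_ hC0
    rw [mul_add, mul_add]
    exact add_le_add (add_le_add (t4.trans hpi) t3) (t5.trans hpi)
  have u4 : ε / 4 * (I : ℝ) ≤ ε / 4 * N := mul_le_mul_of_nonneg_left hIN (by positivity)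
  have u5 : 0 ≤ C * η * N := by positivity
  have d1' := d1.trans u4
  have d2' := d2.trans u4
  have e3 : (ε + 2 * C * η + 7 * C * |α| * A) * N = ε * N + 2 * (C * η * N) + 7 * (C * (|α| * A * N)) := by ring
  have e4 : C * (7 / 2 * (|α| * A * N) + η * N / 2 + 7 / 2 * (|α| * A * N)) =
      7 * (C * (|α| * A * N)) + C * η * N / 2 := by ring
  have e5 : C * (1 + 2 * X + η * N) / 2 = C * (1 + 2 * X) / 2 + C * η * N / 2 := by ring
  rw [e3]
  rw [e4] at u3
  rw [e5] at u1 u2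
  linarith

end Pool.Agent.L0h87.LE
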